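import Pool.Agent.H261R3.LN.UStmts

set_option autoImplicit false

namespace Pool.Agent.H833R3.LN

open Pool.Agent.H261R3.LN

theorem taskU5 : TaskU5 := by
  intro E _ _ p q hq
  have h0 : Subsingleton (ZerothHomotopy E) :=
    (pathConnectedSpace_iff_zerothHomotopy.1 (inferInstance : PathConnectedSpace E)).2
  rcases Nat.lt_or_ge q 1 with h | h
  · have hq0 : q = 0 := by omega
    subst hq0
    exact (HomotopyGroup.pi0EquivZerothHomotopy (X := E) (x := p)).subsingleton
  · have hq1 : q = 1 := by omega
    subst hq1
    exact (HomotopyGroup.pi1EquivFundamentalGroup (X := E) (x := p)).subsingleton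

end Pool.Agent.H833R3.LN
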